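import Pool.Agent.AEC.StmtsZ

/-!
# Squad AEC, row ZTG: a small target gives amalgamation bases
-/

set_option autoImplicit false

open FirstOrder FirstOrder.Language Cardinal Set

universe u

namespace Pool.Agent.AEC.H1

section state

variable {I Ω T : Type u} [LinearOrder I]

/-- the state of a branch `η` at the level `i` -/
def st {G : Type u} (η : I → Bool) (ψ : G → Ω) (P : Set Ω) (f : G → T) (i : I) :
    Set (I ⊕ Ω × T) :=
  {z | (∃ j, j < i ∧ η j = true ∧ z = Sum.inl j) ∨ ∃ x, ψ x ∈ P ∧ z = Sum.inr (ψ x, f x)}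

theorem inl_mem {G : Type u} {η : I → Bool} {ψ : G → Ω} {P : Set Ω} {f : G → T} {i j : I} :
    Sum.inl j ∈ st η ψ P f i ↔ j < i ∧ η j = true := by
  constructor
  · rintro (⟨j', h1, h2, h3⟩ | ⟨x, -, h⟩)
    · rw [Sum.inl.inj h3]
      exact ⟨h1, h2⟩
    · exact absurd h (by simp)
  · rintro ⟨h1, h2⟩
    exact Or.inl ⟨j, h1, h2, rfl⟩

theorem inr_mem {G : Type u} {η : I → Bool} {ψ : G → Ω} {P : Set Ω} {f : G → T} {i : I}
    {p : Ω × T} : Sum.inr p ∈ st η ψ P f i ↔ ∃ x, ψ x ∈ P ∧ p = (ψ x, f x) := by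
  constructor
  · rintro (⟨j', h1, h2, h3⟩ | ⟨x, hx, h⟩)
    · exact absurd h3 (by simp)
    · exact ⟨x, hx, Sum.inr.inj h⟩
  · rintro ⟨x, hx, h⟩
    exact Or.inr ⟨x, hx, by rw [h]⟩

theorem card_st {G : Type u} (η : I → Bool) {ψ : G → Ω} (hψ : Function.Injective ψ) (P : Set Ω)
    (f : G → T) (i : I) : #(st η ψ P f i) ≤ #(Set.Iio i) + #P := by
  have h1 : st η ψ P f i ⊆ (Sum.inl '' Set.Iio i) ∪ ((fun x => Sum.inr (ψ x, f x)) '' (ψ ⁻¹' P)) := by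
    rintro z (⟨j, hj, -, rfl⟩ | ⟨x, hx, rfl⟩)
    · exact Or.inl ⟨j, hj, rfl⟩
    · exact Or.inr ⟨x, hx, rfl⟩
  refine (Cardinal.mk_le_mk_of_subset h1).trans ((Cardinal.mk_union_le _ _).trans ?_)
  refine add_le_add Cardinal.mk_image_le (Cardinal.mk_image_le.trans ?_)
  exact Cardinal.mk_preimage_of_injective ψ P hψ

end state

/-- ZTG -/
theorem ztg (tre : TreStmt.{u}) (cod : CodStmt.{u}) (css : CssStmt.{u}) : ZtgStmt.{u} := by
  intro L κ K M T θ hM hlt hθ hT hN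
  by_contra hcon
  have hnb : ∀ (N : K.Mod) (_ : K.Hom M N), #N.α < θ → ¬ AEC.IsBase N := by
    intro N f hNθ hb
    exact hcon ⟨N, f, hNθ, hb⟩
  have hMθ : #M.α < θ := by
    by_contra h
    exact absurd (Cardinal.power_le_power_left two_ne_zero (not_lt.1 h)) (not_le.2 hlt)
  have hθχ : θ ≤ 2 ^ #M.α := by
    by_contra h
    exact absurd (hθ _ (not_le.1 h)) (not_le.2 (Cardinal.cantor _))
  have hθ0 : ℵ₀ ≤ θ := hM.trans hMθ.le
  have hχ0 : ℵ₀ ≤ (2 : Cardinal.{u}) ^ #M.α := hθ0.trans hθχ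
  obtain ⟨t⟩ := tre L κ K M θ hM hMθ hnb
  have hI : #(θ.ord.ToType) = θ := Cardinal.mk_ord_toType θ
  have hnm : NoMaxOrder θ.ord.ToType := Cardinal.noMaxOrder hθ0
  have hne : Nonempty θ.ord.ToType := by
    rw [← Cardinal.mk_ne_zero_iff, hI]
    intro h
    rw [h] at hθ0
    exact absurd hθ0 (not_le.2 Cardinal.aleph0_pos)
  have hΩ : #t.Ω ≤ θ := t.card_Ω.trans hI.le
  have hG : ∀ η, Nonempty (K.Hom (t.G η) T) := fun η =>
    hN _ (t.e η) ((Cardinal.mk_le_of_injective (t.inj η)).trans hΩ)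
  obtain ⟨f, -⟩ : ∃ f : ∀ η, K.Hom (t.G η) T, f = f := ⟨fun η => (hG η).some, rfl⟩
  have hIio : ∀ i : θ.ord.ToType, #(Set.Iio i) < θ := fun i => Cardinal.mk_Iio_toType_ord_lt i
  have hP : ∀ η i, #(t.P η i) < θ := fun η i =>
    lt_of_le_of_lt (t.card_P η i) (max_lt hMθ (hIio i))
  let S : (θ.ord.ToType → Bool) → θ.ord.ToType →
      {Z : Set (θ.ord.ToType ⊕ t.Ω × T.α) // #Z < θ} := fun η i =>
    ⟨st η (t.ψ η) (t.P η i) (f η) i, lt_of_le_of_lt (card_st η (t.inj η) _ _ i)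
      (Cardinal.add_lt_of_lt hθ0 (hIio i) (hP η i))⟩
  have hX : #{Z : Set (θ.ord.ToType ⊕ t.Ω × T.α) // #Z < θ} ≤ 2 ^ #M.α := by
    refine css _ _ θ hM ?_ hθχ hθ
    rw [Cardinal.mk_sum, Cardinal.mk_prod, Cardinal.lift_id, Cardinal.lift_id, Cardinal.lift_id,
      Cardinal.lift_id, hI]
    refine Cardinal.add_le_of_le hχ0 hθχ ?_
    exact Cardinal.mul_le_of_le hχ0 (hΩ.trans hθχ) hT
  -- the state determines the values below `i`
  have hS0 : ∀ η ν i, S η i = S ν i → ∀ j < i, η j = ν j := by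
    intro η ν i h j hj
    have h1 : Sum.inl j ∈ (S η i).1 ↔ Sum.inl j ∈ (S ν i).1 := by rw [h]
    have h2 : (j < i ∧ η j = true) ↔ (j < i ∧ ν j = true) :=
      inl_mem.symm.trans (h1.trans inl_mem)
    have h3 : η j = true ↔ ν j = true :=
      ⟨fun h => (h2.1 ⟨hj, h⟩).2, fun h => (h2.2 ⟨hj, h⟩).2⟩
    exact Bool.eq_iff_iff.2 h3
  have hS1 : ∀ η ν i, S η i = S ν i → η i = ν i := by
    intro η ν i h
    by_contra hne'
    obtain ⟨x, y, h1, h2, h3⟩ := t.inc η ν i (hS0 η ν i h) hne' T (f η) (f ν)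
    have h4 : Sum.inr (t.ψ η x, f η x) ∈ (S η i).1 := inr_mem.2 ⟨x, h2, rfl⟩
    rw [h] at h4
    obtain ⟨y', -, h5⟩ := inr_mem.1 h4
    have h6 : t.ψ η x = t.ψ ν y' := congrArg Prod.fst h5
    have h7 : f η x = f ν y' := congrArg Prod.snd h5
    have h8 : y' = y := t.inj ν (h6.symm.trans h1)
    rw [h8] at h7
    exact h3 h7
  have hS2' : ∀ i, Order.IsSuccLimit i → ∀ η ν, (∀ j < i, S η j = S ν j) →
      (S η i).1 ⊆ (S ν i).1 := by
    intro i hi η ν h z hz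
    rcases z with j | p
    · obtain ⟨h1, h2⟩ := inl_mem.1 hz
      exact inl_mem.2 ⟨h1, (hS1 η ν j (h j h1)) ▸ h2⟩
    · obtain ⟨x, h1, h2⟩ := inr_mem.1 hz
      rw [t.cont η i hi, Set.mem_iUnion] at h1
      obtain ⟨⟨j, hj⟩, h3⟩ := h1
      have h4 : Sum.inr p ∈ (S η j).1 := inr_mem.2 ⟨x, h3, h2⟩
      rw [h j hj] at h4
      obtain ⟨y, h5, h6⟩ := inr_mem.1 h4
      refine inr_mem.2 ⟨y, ?_, h6⟩
      rw [t.cont ν i hi, Set.mem_iUnion]
      exact ⟨⟨j, hj⟩, h5⟩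
  have hS2 : ∀ i, Order.IsSuccLimit i → ∀ η ν, (∀ j < i, S η j = S ν j) → S η i = S ν i := by
    intro i hi η ν h
    exact Subtype.ext (Set.Subset.antisymm (hS2' i hi η ν h)
      (hS2' i hi ν η fun j hj => (h j hj).symm))
  have h1 := cod θ.ord.ToType _ #M.α S hM hX hS1 hS2
  rw [hI] at h1
  exact absurd h1 (not_le.2 hlt)

end Pool.Agent.AEC.H1
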